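import Pool.Agent.W662.SK.StmtsB

set_option autoImplicit false

open scoped InnerProductSpace ENNReal
open Filter Topology

namespace Pool.Agent.W381.SK

open Pool.Agent.W662.SK

noncomputable section

section gen
variable {Γ K : Type} [Group Γ] [NormedAddCommGroup K] [InnerProductSpace ℂ K]

/-- approximation of elements of the group algebra by finite sums -/
lemma approx (T : L2 Γ K →L[ℂ] L2 Γ K) (hT : T ∈ Cr Γ K) {e : ℝ} (he : 0 < e) :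
    ∃ c : Γ →₀ ℂ, ‖T - ∑ h ∈ c.support, c h • cl (Lam K h)‖ < e := by
  have h1 : T ∈ closure ((Submodule.span ℂ (Set.range fun g : Γ => cl (Lam K g)) :
      Submodule ℂ (L2 Γ K →L[ℂ] L2 Γ K)) : Set (L2 Γ K →L[ℂ] L2 Γ K)) := hT
  have h2 := Metric.mem_closure_iff (α := L2 Γ K →L[ℂ] L2 Γ K) (a := T)
    (s := ((Submodule.span ℂ (Set.range fun g : Γ => cl (Lam K g)) :
      Submodule ℂ (L2 Γ K →L[ℂ] L2 Γ K)) : Set (L2 Γ K →L[ℂ] L2 Γ K)))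
  obtain ⟨b, hb, hd⟩ := h2.mp h1 e he
  rw [SetLike.mem_coe, Finsupp.mem_span_range_iff_exists_finsupp] at hb
  obtain ⟨c, hc⟩ := hb
  refine ⟨c, ?_⟩
  have h3 : ‖T - b‖ < e := lt_of_eq_of_lt (dist_eq_norm T b).symm hd
  rw [← hc] at h3
  exact h3

/-- translations as elements of `Cr` -/
def LL (K : Type) [NormedAddCommGroup K] [InnerProductSpace ℂ K] (h : Γ) : Cr Γ K :=
  ⟨cl (Lam K h), Lam_mem h⟩

/-- finite sums as elements of `Cr` -/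
def dd (K : Type) [NormedAddCommGroup K] [InnerProductSpace ℂ K] (c : Γ →₀ ℂ) : Cr Γ K :=
  ∑ h ∈ c.support, c h • LL K h

lemma dd_coe (c : Γ →₀ ℂ) : ((dd K c : Cr Γ K) : L2 Γ K →L[ℂ] L2 Γ K) =
    ∑ h ∈ c.support, c h • cl (Lam K h) := by
  unfold dd
  rw [Submodule.coe_sum]
  rfl

end gen

lemma lft_sum {Γ I E F : Type} [NormedAddCommGroup E] [InnerProductSpace ℂ E]
    [NormedAddCommGroup F] [InnerProductSpace ℂ F] (c : Γ →₀ ℂ) (T : Γ → (E →L[ℂ] F)) :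
    lft I (∑ h ∈ c.support, c h • T h) = ∑ h ∈ c.support, c h • lft I (T h) := by
  classical
  induction c.support using Finset.induction_on with
  | empty =>
    rw [Finset.sum_empty, Finset.sum_empty]
    refine ContinuousLinearMap.ext fun f => l2_ext fun k => ?_
    rfl
  | insert a s ha ih => rw [Finset.sum_insert ha, Finset.sum_insert ha, lft_add, lft_smul, ih]

section hil
variable {H : Type} [NormedAddCommGroup H] [InnerProductSpace ℂ H]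

lemma inner_lin {J : Type} (s : Finset J) (c : J → ℂ) (T : J → (H →L[ℂ] H)) (a b : H) :
    ⟪a, (∑ h ∈ s, c h • T h) b⟫_ℂ = ∑ h ∈ s, c h * ⟪a, T h b⟫_ℂ := by
  rw [sum_apply, inner_sum]
  refine Finset.sum_congr rfl fun h _ => ?_
  rw [smul_apply, inner_smul_right]

lemma stepB (T : H →L[ℂ] H) {e M : ℝ} (he : 0 ≤ e) (hT : ‖T‖ ≤ e) {a b : H} (hM : 0 ≤ M)
    (ha : ‖a‖ ≤ M) (hb : ‖b‖ ≤ M) : ‖⟪b, T a⟫_ℂ‖ ≤ e * (M * M) := by
  calc ‖⟪b, T a⟫_ℂ‖ ≤ ‖b‖ * ‖T a‖ := norm_inner_le_norm _ _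
    _ ≤ M * (e * M) := by
        refine mul_le_mul hb ?_ (norm_nonneg _) hM
        exact (T.le_opNorm a).trans (mul_le_mul hT ha (norm_nonneg _) he)
    _ = e * (M * M) := by ring

lemma stepD (T1 T2 : H →L[ℂ] H) {e M : ℝ} (he : 0 ≤ e) (hT : ‖T1 - T2‖ ≤ e) {a b : H}
    (hM : 0 ≤ M) (ha : ‖a‖ ≤ M) (hb : ‖b‖ ≤ M) :
    ‖⟪b, T1 a⟫_ℂ - ⟪b, T2 a⟫_ℂ‖ ≤ e * (M * M) := by
  have h1 : ⟪b, T1 a⟫_ℂ - ⟪b, T2 a⟫_ℂ = ⟪b, (T1 - T2) a⟫_ℂ := by
    rw [sub_apply, inner_sub_right]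
  rw [h1]
  exact stepB _ he hT hM ha hb

lemma stepA (T : H →L[ℂ] H) (hT : ‖T‖ ≤ 1) {a b a' b' : H} {M δ : ℝ} (hM : 0 ≤ M) (hδ : 0 ≤ δ)
    (ha : ‖a‖ ≤ M) (hb' : ‖b'‖ ≤ M) (h1 : ‖a - a'‖ ≤ δ) (h2 : ‖b - b'‖ ≤ δ) :
    ‖⟪b, T a⟫_ℂ - ⟪b', T a'⟫_ℂ‖ ≤ 2 * M * δ := by
  have e : ⟪b, T a⟫_ℂ - ⟪b', T a'⟫_ℂ = ⟪b - b', T a⟫_ℂ + ⟪b', T (a - a')⟫_ℂ := by
    rw [inner_sub_left, map_sub, inner_sub_right]; ring
  have hTx : ∀ x : H, ‖T x‖ ≤ ‖x‖ := fun x => by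
    refine (T.le_opNorm x).trans ?_
    have := mul_le_mul_of_nonneg_right hT (norm_nonneg x)
    linarith
  rw [e]
  calc ‖⟪b - b', T a⟫_ℂ + ⟪b', T (a - a')⟫_ℂ‖ ≤ ‖⟪b - b', T a⟫_ℂ‖ + ‖⟪b', T (a - a')⟫_ℂ‖ :=
        norm_add_le _ _
    _ ≤ ‖b - b'‖ * ‖T a‖ + ‖b'‖ * ‖T (a - a')‖ :=
        add_le_add (norm_inner_le_norm _ _) (norm_inner_le_norm _ _)
    _ ≤ δ * M + M * δ := by
        refine add_le_add ?_ ?_
        · exact mul_le_mul h2 ((hTx a).trans ha) (norm_nonneg _) hδ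
        · exact mul_le_mul hb' ((hTx _).trans h1) (norm_nonneg _) hM
    _ = 2 * M * δ := by ring

end hil

lemma norm_lft3 {I J L E F : Type} [NormedAddCommGroup E] [InnerProductSpace ℂ E]
    [NormedAddCommGroup F] [InnerProductSpace ℂ F] (P Q : E →L[ℂ] F) :
    ‖lft I (lft J (lft L P)) - lft I (lft J (lft L Q))‖ ≤ ‖P - Q‖ := by
  rw [← lft_sub, ← lft_sub, ← lft_sub]
  exact (norm_lft_le _).trans ((norm_lft_le _).trans (norm_lft_le _))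

lemma stepC {J : Type} (s : Finset J) (cf p q : J → ℂ) {P Q : ℂ}
    (hP : P = ∑ h ∈ s, cf h * p h) (hQ : Q = ∑ h ∈ s, cf h * q h) {t A : ℝ} (ht : 0 ≤ t)
    (hA : ∑ h ∈ s, ‖cf h‖ ≤ A) (hpq : ∀ h ∈ s, ‖p h - q h‖ ≤ t) : ‖P - Q‖ ≤ A * t := by
  rw [hP, hQ, ← Finset.sum_sub_distrib]
  refine le_trans ?_ (mul_le_mul_of_nonneg_right hA ht)
  rw [Finset.sum_mul]
  refine norm_sum_le_of_le _ fun h hh => ?_
  rw [← mul_sub, norm_mul]
  exact mul_le_mul_of_nonneg_left (hpq h hh) (norm_nonneg _)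

lemma stepK {m : ℕ} (p q w : Fin m → Fin m → ℂ) {P Q : ℂ}
    (hP : P = ∑ r, ∑ s, p r s * w r s) (hQ : Q = ∑ r, ∑ s, q r s * w r s) {e : ℝ}
    (h : ∀ r s, ‖p r s - q r s‖ ≤ e) : ‖P - Q‖ ≤ e * ∑ r, ∑ s, ‖w r s‖ := by
  rw [hP, hQ, ← Finset.sum_sub_distrib, Finset.mul_sum]
  refine norm_sum_le_of_le _ fun r _ => ?_
  rw [← Finset.sum_sub_distrib, Finset.mul_sum]
  refine norm_sum_le_of_le _ fun s _ => ?_
  rw [← sub_mul, norm_mul]
  exact mul_le_mul_of_nonneg_right (h r s) (norm_nonneg _)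

lemma stepY {a b c : ℂ} {t s : ℝ} (h : ‖a - b‖ ≤ t) (hb : b = c) (ha : ‖a‖ ≤ s) :
    ‖c‖ ≤ s + t := by
  subst hb
  have := norm_sub_le a (a - b)
  rw [sub_sub_cancel] at this
  linarith

lemma unit3 {Γ I J K : Type} [Group Γ] [NormedAddCommGroup K] [InnerProductSpace ℂ K]
    (f : L2 Γ (L2 I (L2 J (L2 Γ K)))) :
    lft Γ (lft I (lft J (cl (Lam K (1 : Γ))))) (Rho (L2 I (L2 J (L2 Γ K))) 1 f) = f := by
  refine l2_ext fun k => l2_ext fun i => l2_ext fun j => ?_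
  change Lam K (1 : Γ) ((Rho (L2 I (L2 J (L2 Γ K))) 1 f) k i j) = f k i j
  rw [Rho_apply, mul_one, Lam_one]
  rfl

theorem q (hb : S_Qb) (ha : S_Qa) (hc : S_Qc) : S_Q := by
  classical
  intro Γ K _ _ _ _ _ π Φ Ψ hP hW ω0 hω n ζ F ε hε
  -- unit vector
  obtain ⟨v, hv⟩ := exists_ne (0 : K)
  obtain ⟨x0, hx0⟩ : ∃ x0 : K, ‖x0‖ = 1 := ⟨((‖v‖ : ℂ)⁻¹) • v, norm_smul_inv_norm hv⟩
  -- constants
  set M : ℝ := 1 + ∑ i, ‖ζ i‖ with hMdef
  have hM1 : 1 ≤ M := by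
    have : 0 ≤ ∑ i, ‖ζ i‖ := Finset.sum_nonneg fun i _ => norm_nonneg _
    linarith
  have hM0 : 0 < M := by linarith
  have hζM : ∀ i, ‖ζ i‖ ≤ M - 1 := fun i => by
    have : ‖ζ i‖ ≤ ∑ i, ‖ζ i‖ :=
      Finset.single_le_sum (f := fun i => ‖ζ i‖) (fun i _ => norm_nonneg _) (Finset.mem_univ i)
    linarith
  set δ : ℝ := min 1 (ε / (8 * M)) with hδdef
  have hδ0 : 0 < δ := lt_min one_pos (by positivity)
  have hδ1 : δ ≤ 1 := min_le_left _ _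
  have hδ2 : 2 * M * δ ≤ ε / 4 := by
    have h1 : δ ≤ ε / (8 * M) := min_le_right _ _
    calc 2 * M * δ ≤ 2 * M * (ε / (8 * M)) := mul_le_mul_of_nonneg_left h1 (by positivity)
      _ = ε / 4 := by field_simp; ring
  set e1 : ℝ := ε / (16 * (M * M)) with he1def
  have he1 : 0 < e1 := by positivity
  have he1M : e1 * (M * M) = ε / 16 := by rw [he1def]; field_simp
  -- approximations of the unitaries
  choose c hcc using fun g : Γ => approx (cl (ω0 g)) (hω g) he1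
  -- the vectors
  obtain ⟨m, x, z, hzfix, hzap⟩ := ha Γ K π Φ Ψ hP x0 hx0 n ζ δ hδ0
  set ζ' : Fin n → L2 Γ K := fun i => ∑ r, Φ (x r) x0 1 (z i r) with hζ'def
  have hζ'M : ∀ i, ‖ζ' i‖ ≤ M := fun i => by
    have h1 : ‖ζ' i‖ ≤ ‖ζ i‖ + ‖ζ i - ζ' i‖ := by
      have := norm_sub_le (ζ i) (ζ i - ζ' i)
      rw [sub_sub_cancel] at this
      exact this
    have h2 := hzap i
    have h3 := hζM i
    linarith
  set u : Γ → (L2 Γ K →L[ℂ] L2 Γ K) := fun h => Φ x0 x0 h with hudef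
  set F' : Finset Γ := insert 1 (F.biUnion fun g => (c g).support) with hF'def
  set F1 : Finset Γ := insert 1 F with hF1def
  set w : Γ → Γ → Fin n → Fin n → ℝ :=
    fun h g i j => ∑ r, ∑ s, ‖⟪z j s, u h (Rho K g (z i r))⟫_ℂ‖ with hwdef
  have hw0 : ∀ h g i j, 0 ≤ w h g i j := fun h g i j =>
    Finset.sum_nonneg fun r _ => Finset.sum_nonneg fun s _ => norm_nonneg _
  set C : ℝ := ∑ h ∈ F', ∑ g ∈ F1, ∑ i, ∑ j, w h g i j with hCdef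
  have hwC : ∀ h ∈ F', ∀ g ∈ F1, ∀ i j, w h g i j ≤ C := by
    intro h hh g hg i j
    calc w h g i j ≤ ∑ j, w h g i j :=
          Finset.single_le_sum (f := fun j => w h g i j) (fun j _ => hw0 h g i j)
            (Finset.mem_univ j)
      _ ≤ ∑ i, ∑ j, w h g i j :=
          Finset.single_le_sum (f := fun i => ∑ j, w h g i j)
            (fun i _ => Finset.sum_nonneg fun j _ => hw0 h g i j) (Finset.mem_univ i)
      _ ≤ ∑ g ∈ F1, ∑ i, ∑ j, w h g i j :=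
          Finset.single_le_sum (f := fun g => ∑ i, ∑ j, w h g i j)
            (fun g _ => Finset.sum_nonneg fun i _ => Finset.sum_nonneg fun j _ => hw0 h g i j) hg
      _ ≤ C :=
          Finset.single_le_sum (f := fun h => ∑ g ∈ F1, ∑ i, ∑ j, w h g i j)
            (fun h _ => Finset.sum_nonneg fun g _ => Finset.sum_nonneg fun i _ =>
              Finset.sum_nonneg fun j _ => hw0 h g i j) hh
  have hC0 : 0 ≤ C := Finset.sum_nonneg fun h _ => Finset.sum_nonneg fun g _ =>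
    Finset.sum_nonneg fun i _ => Finset.sum_nonneg fun j _ => hw0 h g i j
  set A : ℝ := ∑ g ∈ F, ∑ h ∈ (c g).support, ‖c g h‖ with hAdef
  have hA0 : 0 ≤ A := Finset.sum_nonneg fun g _ => Finset.sum_nonneg fun h _ => norm_nonneg _
  have hAg : ∀ g ∈ F, ∑ h ∈ (c g).support, ‖c g h‖ ≤ A := fun g hg =>
    Finset.single_le_sum (f := fun g => ∑ h ∈ (c g).support, ‖c g h‖)
      (fun g _ => Finset.sum_nonneg fun h _ => norm_nonneg _) hg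
  set e3 : ℝ := min (1 / (C + 1)) (ε / (4 * (A * C + 1))) with he3def
  have hAC0 : 0 ≤ A * C := mul_nonneg hA0 hC0
  have he3 : 0 < e3 := lt_min (by positivity) (by positivity)
  have he3C : e3 * C ≤ 1 := by
    have h1 : e3 ≤ 1 / (C + 1) := min_le_left _ _
    calc e3 * C ≤ 1 / (C + 1) * C := mul_le_mul_of_nonneg_right h1 hC0
      _ = C / (C + 1) := by ring
      _ ≤ 1 := by rw [div_le_one (by positivity)]; linarith
  have he3A : A * (e3 * C) ≤ ε / 4 := by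
    have h1 : e3 ≤ ε / (4 * (A * C + 1)) := min_le_right _ _
    calc A * (e3 * C) = (A * C) * e3 := by ring
      _ ≤ (A * C) * (ε / (4 * (A * C + 1))) := mul_le_mul_of_nonneg_left h1 hAC0
      _ = (ε / 4) * ((A * C) / (A * C + 1)) := by field_simp
      _ ≤ (ε / 4) * 1 := by
          refine mul_le_mul_of_nonneg_left ?_ (by positivity)
          rw [div_le_one (by positivity)]; linarith
      _ = ε / 4 := by ring
  -- weak containment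
  obtain ⟨B, S, y, hyS, hyap⟩ := hW m x F' e3 he3
  obtain ⟨ι, b, -⟩ := exists_hilbertBasis ℂ K
  obtain ⟨Y, hYdef⟩ : ∃ Y : Fin n → L2 Γ (L2 B (L2 ι (L2 Γ K))),
      Y = fun i => Yv b x0 u S y (z i) := ⟨fun i => Yv b x0 u S y (z i), rfl⟩
  -- hypotheses on u
  have hx00 : ⟪x0, x0⟫_ℂ = 1 := by
    rw [inner_self_eq_norm_sq_to_K, hx0]; simp
  have hu1 : ∀ h k, u h * u k = u (h * k) := fun h k => by
    have := hP.hmul x0 x0 h x0 x0 k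
    rw [hx00, one_smul] at this
    exact this
  have hu2 : ∀ h, star (u h) = u h⁻¹ := fun h => hP.hadj x0 x0 h
  have hu3 : ∀ h k, u h * cl (Rho K k) = cl (Rho K k) * u h := fun h k => hP.hR x0 x0 h k
  have hbT := fun g h i j => hb Γ K π Φ Ψ hP x0 n m x z g h i j
  have hcT := fun g h i j => hc Γ K B ι b x0 hx0 u hu1 hu2 hu3 S n m y hyS z hzfix g h i j
  -- comparison on translations
  have key : ∀ h ∈ F', ∀ g ∈ F1, ∀ i j,
      ‖⟪ζ' j, Ψ (LL K h) (Rho K g (ζ' i))⟫_ℂ -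
        ⟪Y j, lft Γ (lft B (lft ι (cl (Lam K h)))) (Rho (L2 B (L2 ι (L2 Γ K))) g (Y i))⟫_ℂ‖
        ≤ e3 * C := by
    intro h hh g hg i j
    have e1' : ⟪ζ' j, Ψ (LL K h) (Rho K g (ζ' i))⟫_ℂ =
        ∑ r, ∑ s, ⟪x s, π h (x r)⟫_ℂ * ⟪z j s, u h (Rho K g (z i r))⟫_ℂ := hbT g h i j
    have e2' : ⟪Y j, lft Γ (lft B (lft ι (cl (Lam K h))))
        (Rho (L2 B (L2 ι (L2 Γ K))) g (Y i))⟫_ℂ =
        ∑ r, ∑ s, (∑ k ∈ S, ⟪y s (h * k), y r k⟫_ℂ) * ⟪z j s, u h (Rho K g (z i r))⟫_ℂ := by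
      subst hYdef
      exact hcT g h i j
    refine le_trans ?_ (mul_le_mul_of_nonneg_left (hwC h hh g hg i j) he3.le)
    exact stepK _ _ _ e1' e2' fun r s => (hyap h hh r s).le
  -- norm of Y
  have hYM : ∀ i, ‖Y i‖ * ‖Y i‖ ≤ 2 * (M * M) := by
    intro i
    have h1 := key 1 (Finset.mem_insert_self _ _) 1 (Finset.mem_insert_self _ _) i i
    have h2 : ⟪Y i, lft Γ (lft B (lft ι (cl (Lam K (1 : Γ)))))
        (Rho (L2 B (L2 ι (L2 Γ K))) 1 (Y i))⟫_ℂ = ⟪Y i, Y i⟫_ℂ :=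
      congrArg (fun f => ⟪Y i, f⟫_ℂ) (unit3 (Y i))
    have h3 : ‖⟪ζ' i, Ψ (LL K (1 : Γ)) (Rho K 1 (ζ' i))⟫_ℂ‖ ≤ 1 * (M * M) := by
      rw [Rho_one]
      refine stepB (Ψ (LL K (1 : Γ))) zero_le_one ?_ hM0.le (hζ'M i) (hζ'M i)
      exact (hP.hnorm _).trans (norm_cl_le _)
    have h4 : ‖⟪Y i, Y i⟫_ℂ‖ = ‖Y i‖ * ‖Y i‖ := by
      rw [inner_self_eq_norm_sq_to_K]
      rw [norm_pow]
      simp [sq]
    have h5 := stepY h1 h2 h3
    have h6 : (1 : ℝ) ≤ M * M := one_le_mul_of_one_le_of_one_le hM1 hM1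
    calc ‖Y i‖ * ‖Y i‖ = ‖⟪Y i, Y i⟫_ℂ‖ := h4.symm
      _ ≤ 1 * (M * M) + e3 * C := h5
      _ ≤ 2 * (M * M) := by linarith
  have hYle : ∀ i, ‖Y i‖ ≤ Real.sqrt (2 * (M * M)) := fun i =>
    Real.le_sqrt_of_sq_le (by rw [sq]; exact hYM i)
  -- the representation
  let ω : Γ →* (L2 B (L2 ι (L2 Γ K)) ≃ₗᵢ[ℂ] L2 B (L2 ι (L2 Γ K))) :=
    { toFun := fun g => isoL (Equiv.refl B) (fun _ => isoL (Equiv.refl ι) (fun _ => ω0 g))
      map_one' := by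
        refine LinearIsometryEquiv.ext fun f => l2_ext fun k => l2_ext fun l => ?_
        change (ω0 1) (f k l) = f k l
        rw [map_one]; rfl
      map_mul' := fun g h => by
        refine LinearIsometryEquiv.ext fun f => l2_ext fun k => l2_ext fun l => ?_
        change (ω0 (g * h)) (f k l) = ω0 g (ω0 h (f k l))
        rw [map_mul]; rfl }
  have hωc : ∀ g, cl (ω g) = lft B (lft ι (cl (ω0 g))) := fun g => by
    refine ContinuousLinearMap.ext fun f => l2_ext fun k => l2_ext fun l => ?_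
    rfl
  refine ⟨L2 B (L2 ι (L2 Γ K)), inferInstance, inferInstance, inferInstance, ω, Y, ?_⟩
  intro g hg i j
  have hE := congrArg (fun T => ⟪Y j, lft Γ T (Rho (L2 B (L2 ι (L2 Γ K))) g (Y i))⟫_ℂ) (hωc g)
  have hg1 : g ∈ F1 := Finset.mem_insert_of_mem hg
  have hsub : ∀ h ∈ (c g).support, h ∈ F' := fun h hh =>
    Finset.mem_insert_of_mem (Finset.mem_biUnion.mpr ⟨g, hg, hh⟩)
  -- step A
  have hA' : ‖⟪ζ j, Ψ ⟨cl (ω0 g), hω g⟩ (Rho K g (ζ i))⟫_ℂ -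
      ⟪ζ' j, Ψ ⟨cl (ω0 g), hω g⟩ (Rho K g (ζ' i))⟫_ℂ‖ ≤ 2 * M * δ := by
    refine stepA (Ψ ⟨cl (ω0 g), hω g⟩) ((hP.hnorm _).trans (norm_cl_le _)) hM0.le hδ0.le ?_
      (hζ'M j) ?_ (hzap j).le
    · rw [LinearIsometryEquiv.norm_map]; linarith [hζM i]
    · rw [← map_sub, LinearIsometryEquiv.norm_map]; exact (hzap i).le
  -- step B
  have hB' : ‖⟪ζ' j, Ψ ⟨cl (ω0 g), hω g⟩ (Rho K g (ζ' i))⟫_ℂ -
      ⟪ζ' j, Ψ (dd K (c g)) (Rho K g (ζ' i))⟫_ℂ‖ ≤ e1 * (M * M) := by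
    refine stepD _ _ he1.le ?_ hM0.le ?_ (hζ'M j)
    · rw [← map_sub]
      refine (hP.hnorm _).trans ?_
      have : ‖(cl (ω0 g)) - ∑ h ∈ (c g).support, (c g) h • cl (Lam K h)‖ ≤ e1 := (hcc g).le
      rw [← dd_coe] at this
      exact this
    · rw [LinearIsometryEquiv.norm_map]; exact hζ'M i
  -- step C
  have hC' : ‖⟪ζ' j, Ψ (dd K (c g)) (Rho K g (ζ' i))⟫_ℂ -
      ⟪Y j, lft Γ (lft B (lft ι (∑ h ∈ (c g).support, (c g) h • cl (Lam K h))))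
        (Rho (L2 B (L2 ι (L2 Γ K))) g (Y i))⟫_ℂ‖ ≤ A * (e3 * C) := by
    have h1 : ⟪ζ' j, Ψ (dd K (c g)) (Rho K g (ζ' i))⟫_ℂ =
        ∑ h ∈ (c g).support, (c g) h * ⟪ζ' j, Ψ (LL K h) (Rho K g (ζ' i))⟫_ℂ := by
      have h3 : Ψ (dd K (c g)) = ∑ h ∈ (c g).support, (c g) h • Ψ (LL K h) := by
        unfold dd
        rw [map_sum]
        refine Finset.sum_congr rfl fun h _ => ?_
        rw [map_smul]
      rw [h3]
      exact inner_lin _ _ _ _ _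
    have h2 : ⟪Y j, lft Γ (lft B (lft ι (∑ h ∈ (c g).support, (c g) h • cl (Lam K h))))
        (Rho (L2 B (L2 ι (L2 Γ K))) g (Y i))⟫_ℂ =
        ∑ h ∈ (c g).support, (c g) h * ⟪Y j, lft Γ (lft B (lft ι (cl (Lam K h))))
          (Rho (L2 B (L2 ι (L2 Γ K))) g (Y i))⟫_ℂ := by
      rw [lft_sum, lft_sum, lft_sum]
      exact inner_lin _ _ _ _ _
    exact stepC _ _ _ _ h1 h2 (mul_nonneg he3.le hC0) (hAg g hg)
      fun h hh => key h (hsub h hh) g hg1 i j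
  -- step D
  have hD' : ‖⟪Y j, lft Γ (lft B (lft ι (cl (ω0 g)))) (Rho (L2 B (L2 ι (L2 Γ K))) g (Y i))⟫_ℂ -
      ⟪Y j, lft Γ (lft B (lft ι (∑ h ∈ (c g).support, (c g) h • cl (Lam K h))))
        (Rho (L2 B (L2 ι (L2 Γ K))) g (Y i))⟫_ℂ‖ ≤ e1 * (2 * (M * M)) := by
    have h0 : 0 ≤ 2 * (M * M) := by positivity
    have h2 : ‖Rho (L2 B (L2 ι (L2 Γ K))) g (Y i)‖ ≤ Real.sqrt (2 * (M * M)) :=
      ((Rho (L2 B (L2 ι (L2 Γ K))) g).norm_map (Y i)).trans_le (hYle i)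
    have h3 : ‖lft Γ (lft B (lft ι (cl (ω0 g)))) -
      lft Γ (lft B (lft ι (∑ h ∈ (c g).support, (c g) h • cl (Lam K h))))‖ ≤ e1 :=
      (norm_lft3 _ _).trans (hcc g).le
    have h1 := stepD _ _ he1.le h3 (Real.sqrt_nonneg _) h2 (hYle j)
    exact h1.trans_eq (congrArg (fun t => e1 * t) (Real.mul_self_sqrt h0))
  -- total
  have tri : ∀ a b c d e : ℂ, ‖a - e‖ ≤ ‖a - b‖ + ‖b - c‖ + ‖c - d‖ + ‖e - d‖ := by
    intro a b c d e
    have : a - e = (a - b) + (b - c) + (c - d) - (e - d) := by ring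
    rw [this]
    refine (norm_sub_le _ _).trans (add_le_add_left ?_ _)
    refine (norm_add_le _ _).trans (add_le_add_left ?_ _)
    exact norm_add_le _ _
  refine lt_of_eq_of_lt (congrArg
    (fun t => ‖⟪ζ j, Ψ ⟨cl (ω0 g), hω g⟩ (Rho K g (ζ i))⟫_ℂ - t‖) hE) ?_
  refine (tri _ _ _ _ _).trans_lt ((add_le_add (add_le_add (add_le_add hA' hB') hC') hD').trans_lt
    ?_)
  have e5 : e1 * (2 * (M * M)) = ε / 8 := by
    have : e1 * (2 * (M * M)) = 2 * (e1 * (M * M)) := by ring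
    rw [this, he1M]; ring
  clear_value e1 e3 A C δ M
  clear * - e5 he1M hδ2 he3A hε
  rw [e5, he1M]
  linarith

end

end Pool.Agent.W381.SK
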